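import Mathlib
import Pool.Agent.H58.Heesch.Defs
import Pool.Agent.H58.Heesch.Main
import Pool.Agent.H58.HeeschC.NoTile
import Pool.Agent.H58.HeeschC.Patch

set_option autoImplicit false

namespace Pool.Agent.Results.MP_127c5d_co.HeeschUnboundedConn

open Pool.Agent.H58.Heesch Pool.Agent.H58.HeeschC

/-- The connected bodies in dimension `m + 3`. -/
theorem connected_case (m k : ℕ) : ∃ A : Set (EuclideanSpace ℝ (Fin (m + 1 + 2))),
    IsBody A ∧ IsConnected (interior A) ∧ Surrounded k A ∧ ¬ IsPrototile A := by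
  obtain ⟨q, hq⟩ : ∃ q : ℕ, q = (k + 1) * (m + 20) := ⟨_, rfl⟩
  obtain ⟨a, ha⟩ : ∃ a : ℕ, a = 4 * q + 1 := ⟨_, rfl⟩
  have hq20 : 20 ≤ q := by rw [hq]; nlinarith
  have haodd : Odd a := ⟨2 * q, by omega⟩
  have ha3 : 3 ≤ a := by omega
  have ha0 : (0 : ℝ) ≤ (a : ℝ) := by positivity
  have hm0 : (0 : ℝ) ≤ (m : ℝ) := by positivity
  obtain ⟨c, hc⟩ : ∃ c : ℝ, c = (a : ℝ) + 3 := ⟨_, rfl⟩
  obtain ⟨ρ, hρ⟩ : ∃ ρ : ℝ, ρ = 1 / (16 * (1 + c)) := ⟨_, rfl⟩
  obtain ⟨d, hd⟩ : ∃ d : ℝ, d = c + m + 4 := ⟨_, rfl⟩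
  obtain ⟨r, hr⟩ : ∃ r : ℝ, r = ρ / (512 * d) := ⟨_, rfl⟩
  have hc0 : 0 < 1 + c := by rw [hc]; linarith
  have hd0 : 7 ≤ d := by rw [hd, hc]; linarith
  have hρ0 : 0 < ρ := by rw [hρ]; positivity
  have hρ1 : (1 + c) * ρ = 1 / 16 := by rw [hρ]; field_simp
  have hρ2 : ρ ≤ 1 / 16 := by
    have : 0 ≤ c * ρ := mul_nonneg (by rw [hc]; linarith) hρ0.le
    linarith
  have hr0 : 0 < r := by rw [hr]; positivity
  have hrd : 512 * r * d = ρ := by rw [hr]; field_simp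
  have hr1 : r ≤ 1 / 1024 := by nlinarith
  have P : Par m c r ρ d := ⟨by rw [hc]; linarith, hr0, hr1, hρ0, hρ1.le, hd.ge, hrd.le⟩
  have hFM : ∀ f ∈ FF (a : ℤ), (0 : ℝ) ≤ f ∧ (f : ℝ) ≤ 2 * a + 2 := by
    intro f hf
    rcases mem_FF.mp hf with rfl | rfl | rfl | rfl <;> push_cast <;> constructor <;> linarith
  have hFfin : (FF (a : ℤ)).Finite := by unfold FF; simp
  have hc' : c = ((a : ℤ) : ℝ) + 3 := by rw [hc]; push_cast; ring
  refine ⟨BB (FF (a : ℤ)) c r, ?_, ?_, ?_, ?_⟩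
  · exact isBody_BB hFfin ⟨0, mem_FF.mpr (Or.inl rfl)⟩ (by rw [hc]; linarith) hr0 (by linarith) hFM
  · exact isConnected_interior_BB (a := (a : ℤ)) (by omega) hc' hr0 (by linarith)
  · exact surrounded_BB k q hq hr0 (by linarith) (a := (a : ℤ)) (by rw [ha]; push_cast; ring) hc'
  · exact Pool.Agent.H58.HeeschC.not_prototile haodd ha3 P

/-- The negated form of Heesch's problem, in every dimension `n ≥ 2`: for every `k` there is a body
`A ⊂ E^n` that can be completely surrounded `k` times by congruent copies of itself but is not the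
prototile of a monohedral tiling of `E^n`. If `n ≥ 3` the body has connected interior. -/
theorem result : ∀ n : ℕ, 2 ≤ n → ∀ k : ℕ, ∃ A : Set (EuclideanSpace ℝ (Fin n)),
    IsBody A ∧ (3 ≤ n → IsConnected (interior A)) ∧ Surrounded k A ∧ ¬ IsPrototile A := by
  intro n hn k
  rcases Nat.lt_or_ge n 3 with h | h
  · obtain ⟨A, h1, h2, h3⟩ := heesch_bodies n hn k
    exact ⟨A, h1, fun h' => absurd h' (by omega), h2, h3⟩
  · obtain ⟨m, rfl⟩ : ∃ m, n = m + 1 + 2 := ⟨n - 3, by omega⟩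
    obtain ⟨A, h1, h2, h3, h4⟩ := connected_case m k
    exact ⟨A, h1, fun _ => h2, h3, h4⟩

end Pool.Agent.Results.MP_127c5d_co.HeeschUnboundedConn
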